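import Mathlib
import Pool.Agent.Helper85.RP.NotDiffeo

set_option autoImplicit false

namespace Pool.Agent.Results.MP_c1d873_al.ClosedManifolds

open scoped Manifold ContDiff

/-- The group `G` acts faithfully by `C^k` diffeomorphisms on the `n`-manifold `N` (charts in
Euclidean space, so no boundary): there is an injective homomorphism from `G` to the group of
bijections of `N` all of whose values (hence also their inverses) are of class `C^k`. -/
def ActsFaithfully (k : ℕ∞) (n : ℕ) (G : Type) [Group G] (N : Type)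
    [TopologicalSpace N] [ChartedSpace (EuclideanSpace ℝ (Fin n)) N] : Prop :=
  ∃ ρ : G →* Equiv.Perm N, Function.Injective ρ ∧
    ∀ g : G, ContMDiff (𝓡 n) (𝓡 n) (k : WithTop ℕ∞) (ρ g)

/-- The group `G` is a `C^k` detecting group for the closed `n`-manifold `M` among the closed
manifolds: for every closed (compact, connected, smooth, without boundary) `n`-manifold `N`, `G`
acts faithfully by `C^k` diffeomorphisms on `N` if and only if `N` is `C^k`-diffeomorphic to
`M`. -/
def IsDetectingAmongClosed (k : ℕ∞) (n : ℕ) (M : Type) [TopologicalSpace M]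
    [ChartedSpace (EuclideanSpace ℝ (Fin n)) M] (G : Type) [Group G] : Prop :=
  ∀ (N : Type) [TopologicalSpace N] [T2Space N] [CompactSpace N] [ConnectedSpace N]
    [ChartedSpace (EuclideanSpace ℝ (Fin n)) N] [IsManifold (𝓡 n) ∞ N],
    ActsFaithfully k n G N ↔ Nonempty (Diffeomorph (𝓡 n) (𝓡 n) M N (k : WithTop ℕ∞))

/-- For every regularity `k` (a positive integer or `∞`) and every even dimension `n ≥ 2` there is
a closed connected smooth `n`-manifold `M` (real projective space) such that no group whatsoever
is a `C^k` detecting group for `M`, even if only closed manifolds are to be distinguished from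
`M`. -/
theorem result (k : ℕ∞) (hk : 1 ≤ k) (n : ℕ) (hn : Even n) (hn0 : 0 < n) :
    ∃ (M : Type) (_ : TopologicalSpace M) (_ : T2Space M) (_ : CompactSpace M)
      (_ : ConnectedSpace M) (_ : ChartedSpace (EuclideanSpace ℝ (Fin n)) M)
      (_ : IsManifold (𝓡 n) ∞ M),
      ∀ (G : Type) [Group G], ¬ IsDetectingAmongClosed k n M G := by
  refine ⟨Pool.Agent.Helper85.RP.RPn n, inferInstance, inferInstance, inferInstance,
    Pool.Agent.Helper85.RP.connectedSpace_RP hn0, inferInstance, inferInstance, ?_⟩
  intro G _ h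
  have hc : ConnectedSpace (Pool.Agent.Helper85.RP.RPn n) :=
    Pool.Agent.Helper85.RP.connectedSpace_RP hn0
  have hs : ConnectedSpace (Pool.Agent.Helper85.RP.S n) :=
    Subtype.connectedSpace (isConnected_sphere (Pool.Agent.Helper85.RP.rank_V (by omega)) 0
      zero_le_one)
  have hm : IsManifold (𝓡 n) ∞ (Pool.Agent.Helper85.RP.S n) :=
    IsManifold.of_le (n := ⊤) le_top
  obtain ⟨ρ, hρ, hs1⟩ := (h (Pool.Agent.Helper85.RP.RPn n)).mpr ⟨Diffeomorph.refl _ _ _⟩
  obtain ⟨ρ', hρ', hs'⟩ := Pool.Agent.Helper85.RP.exists_action hk hn ρ hρ hs1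
  obtain ⟨e⟩ := (h (Pool.Agent.Helper85.RP.S n)).mp ⟨ρ', hρ', hs'⟩
  exact (Pool.Agent.Helper85.RP.not_diffeo hk hn hn0).false e

end Pool.Agent.Results.MP_c1d873_al.ClosedManifolds
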