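import Mathlib
import Pool.Agent.Helper3.Act

set_option autoImplicit false

namespace Pool.Agent.Results.MP_c1d873_al.NoDetectingGroup

open scoped Manifold ContDiff

/-- The group `G` acts faithfully by `C^k` diffeomorphisms on the `n`-manifold `N` (charts in the
Euclidean half-space, so boundary is allowed): there is an injective homomorphism from `G` to the
group of bijections of `N` all of whose values (hence also their inverses) are of class `C^k`. -/
def ActsFaithfully (k : ℕ∞) (n : ℕ) [NeZero n] (G : Type) [Group G] (N : Type)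
    [TopologicalSpace N] [ChartedSpace (EuclideanHalfSpace n) N] : Prop :=
  ∃ ρ : G →* Equiv.Perm N, Function.Injective ρ ∧
    ∀ g : G, ContMDiff (𝓡∂ n) (𝓡∂ n) (k : WithTop ℕ∞) (ρ g)

/-- The group `G` is a `C^k` detecting group for the `n`-manifold `M`: for every compact connected
smooth `n`-manifold `N` (boundary allowed), `G` acts faithfully by `C^k` diffeomorphisms on `N` if
and only if `N` is `C^k`-diffeomorphic to `M`. -/
def IsDetectingGroup (k : ℕ∞) (n : ℕ) [NeZero n] (M : Type) [TopologicalSpace M]
    [ChartedSpace (EuclideanHalfSpace n) M] (G : Type) [Group G] : Prop :=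
  ∀ (N : Type) [TopologicalSpace N] [T2Space N] [CompactSpace N] [ConnectedSpace N]
    [ChartedSpace (EuclideanHalfSpace n) N] [IsManifold (𝓡∂ n) ∞ N],
    ActsFaithfully k n G N ↔ Nonempty (Diffeomorph (𝓡∂ n) (𝓡∂ n) M N (k : WithTop ℕ∞))

/-- For every regularity `k` (a positive integer or `∞`) there is a compact connected smooth
manifold `M` (of dimension one, namely the interval `[-1, 1]`) which has no `C^k` detecting group
at all; in particular it has no countable and no finitely generated one. -/
theorem result (k : ℕ∞) (hk : 1 ≤ k) :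
    ∃ (M : Type) (_ : TopologicalSpace M) (_ : T2Space M) (_ : CompactSpace M)
      (_ : ConnectedSpace M) (_ : ChartedSpace (EuclideanHalfSpace 1) M)
      (_ : IsManifold (𝓡∂ 1) ∞ M), ∀ (G : Type) [Group G], ¬ IsDetectingGroup k 1 M G := by
  have hf : Fact ((-1:ℝ) < 1) := ⟨by norm_num⟩
  have hc : ConnectedSpace (Set.Icc (-1:ℝ) 1) :=
    Subtype.connectedSpace (isConnected_Icc (by norm_num))
  refine ⟨Set.Icc (-1:ℝ) 1, inferInstance, inferInstance, inferInstance, hc, inferInstance,
    inferInstance, ?_⟩
  intro G _ h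
  obtain ⟨ρ, hρ, hs⟩ := (h (Set.Icc (-1:ℝ) 1)).mpr ⟨Diffeomorph.refl _ _ _⟩
  obtain ⟨ρ', hρ', hs'⟩ := Pool.Agent.Helper3.Act.exists_action k hk ρ hρ hs
  obtain ⟨e⟩ := (h Pool.Agent.Helper3.Circ.Circ).mp ⟨ρ', hρ', hs'⟩
  exact Pool.Agent.Helper3.Act.not_homeo e.toHomeomorph

end Pool.Agent.Results.MP_c1d873_al.NoDetectingGroup
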